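import Pool.Agent.Y61.LP.CritB

/-!
For every dimension `n ≥ 2` and every real number `e > 0` there is an unbounded domain `D ⊆ ℝ^n` such
that `|x| (log⁺ |x|)^b` has a harmonic majorant on `D` for all `0 ≤ b < e`, while
`|x_1| (log⁺ |x_1|)^a` has none for any `a ≥ e`; so the set of admissible exponents is exactly
`[0, e)`.
-/

set_option autoImplicit false

namespace Pool.Agent.Results.MP_677f70_an.LogThreshold

open Set Filter Topology InnerProductSpace Laplacian
open Pool.Agent.Y61.LP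

/-- For every `n ≥ 2` and every `e > 0` there is an unbounded domain `D` in `ℝ^n` such that
`|x| (log⁺ |x|)^b` has a harmonic majorant on `D` for all `0 ≤ b < e` (in particular the norm has
one), while `|x_1| (log⁺ |x_1|)^a` has none, for all `a ≥ e`. -/
theorem result : ∀ (n : ℕ) (hn : 2 ≤ n) (e : ℝ), 0 < e → ∃ D : Set (EuclideanSpace ℝ (Fin n)),
    IsOpen D ∧ IsConnected D ∧ ¬ Bornology.IsBounded D ∧
    (∀ b : ℝ, 0 ≤ b → b < e → ∃ h : EuclideanSpace ℝ (Fin n) → ℝ, HarmonicOnNhd h D ∧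
      ∀ x ∈ D, ‖x‖ * Real.posLog ‖x‖ ^ b ≤ h x) ∧
    ∀ a : ℝ, e ≤ a → ¬ ∃ h : EuclideanSpace ℝ (Fin n) → ℝ, HarmonicOnNhd h D ∧
      ∀ x ∈ D, |x ⟨0, by omega⟩| * Real.posLog |x ⟨0, by omega⟩| ^ a ≤ h x := by
  intro n hn e he
  obtain ⟨k, rfl⟩ : ∃ k, n = k + 2 := ⟨n - 2, by omega⟩
  refine ⟨Dm k e, isOpen_Dm k e, isConnected_Dm k he, not_isBounded_Dm k e,
    fun b hb hbe => major he hb hbe, fun a hae => ?_⟩
  rcases hae.eq_or_lt with h | h
  · subst h
    exact crit he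
  · exact minor he h

end Pool.Agent.Results.MP_677f70_an.LogThreshold
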